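import Mathlib
import Pool.Agent.Lib.helper31.PeriodEx

set_option autoImplicit false

open Pool.Agent.Lib.helper31.Period0

namespace Pool.Agent.Results.MP_5591bc_ag.FiniteMonodromy

/-- The Zariski closure over the algebraic numbers of a subset of `S(ℂ) × GL n ℂ`, `S = Spec A`. -/
def zar {A : Type} [CommRing A] [Algebra Qb A] {n : ℕ} (G : Set (Pt Qb A × GL (Fin n) ℂ)) :
    Set (Pt Qb A × GL (Fin n) ℂ) :=
  {z | ∀ F : MvPolynomial (Fin n × Fin n) A,
    (∀ w ∈ G, MvPolynomial.eval₂ (w.1.hom : A →+* ℂ) (fun ij => w.2.val ij.1 ij.2) F = 0) →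
    MvPolynomial.eval₂ (z.1.hom : A →+* ℂ) (fun ij => z.2.val ij.1 ij.2) F = 0}

open Pool.Agent.Lib.helper31 SqCover PeriodEx LaurentPolynomial in
theorem result : ∃ (A B : Type) (_ : CommRing A) (_ : CommRing B) (_ : Algebra Qb A)
    (_ : Algebra Qb B) (_ : Algebra A B) (_ : IsScalarTower Qb A B),
    IsDomain A ∧ IsDomain B ∧ Algebra.Smooth Qb A ∧ Algebra.Etale A B ∧ Module.Finite A B ∧
    ∃ (n : ℕ) (b : Module.Basis (Fin n) A (H0 A B)) (U : Set (Pt Qb A))
      (v : Fin n → Pt Qb B → ℤ),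
      IsOpen U ∧ IsConnected U ∧ IsBetti U v ∧ (∀ t ∈ U, ∃ Q, IsPeriod b v t Q) ∧
      (∃ s ∈ U, s.IsAlg) ∧
      ∀ e : ℤ, e = 1 ∨ e = -1 → ∀ G : Set (Pt Qb A × GL (Fin n) ℂ),
        (∀ t ∈ U, ∀ Q, IsPeriod b v t Q → (t, Q ^ e) ∈ G) →
        ∀ s ∈ U, s.IsAlg → ∀ P, IsPeriod b v s P → zarPt (P ^ e) ⊂ {Q | (s, Q) ∈ zar G} := by
  refine ⟨A Qb, B Qb, inferInstance, inferInstance, inferInstance, inferInstance, inferInstance,
    inferInstance, inferInstance, domainB Qb, smoothA Qb, etale Qb, inferInstance, 2, b Qb, U Qb,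
    v Qb, U_open Qb, U_conn Qb, betti Qb, exists_period Qb, ?_, ?_⟩
  · refine ⟨spt Qb 1, ?_, sp_alg Qb (fun r => mem_algebraicClosure_iff.mp r.2) 1 one_ne_zero
      isAlgebraic_one⟩
    change 0 < Complex.re (sp Qb 1 (T 1))
    rw [sp_T Qb 1 one_ne_zero]; simp
  · intro e he G hG s hs halg P hP
    obtain ⟨a, ha, h⟩ := exists_root _ hs
    have ha0 : a ≠ 0 := by rintro rfl; simp at ha
    have h' : (-a) ^ 2 = s.hom (T 1) := by rw [← h]; ring
    obtain rfl := (period_iff Qb s a ha ha0 h _).mp hP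
    have haa : a ∈ algebraicClosure ℚ ℂ := by
      rw [mem_algebraicClosure_iff]
      exact IsAlgebraic.of_pow (n := 2) (by norm_num) (h ▸ halg (T 1))
    constructor
    · intro Q hQ F hF
      have h1 := hF _ (hG s hs _ hP)
      let φ : A Qb →+* Qb := (s.hom : A Qb →+* ℂ).codRestrict (algebraicClosure ℚ ℂ)
        fun r => mem_algebraicClosure_iff.mpr (halg r)
      have key : ∀ R : GL (Fin 2) ℂ, MvPolynomial.aeval (fun ij : Fin 2 × Fin 2 => R.val ij.1 ij.2)
          (MvPolynomial.map φ F) =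
          MvPolynomial.eval₂ (s.hom : A Qb →+* ℂ) (fun ij => R.val ij.1 ij.2) F := fun R => by
        rw [MvPolynomial.aeval_def, MvPolynomial.eval₂_map]; rfl
      have := hQ (MvPolynomial.map φ F) (by rw [key]; exact h1)
      rwa [key] at this
    · intro hsub
      have hmem : M (-a) (neg_ne_zero.mpr ha0) ^ e ∈ {Q | (s, Q) ∈ zar G} := fun F hF =>
        vanish Qb (fun t => (t.hom : A Qb →+* ℂ)) (fun r => sp_sq_diff Qb r) e he F
          (fun t ht Q hQ => hF _ (hG t ht Q hQ)) s (-a) _ h'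
      have := zarPt_entry _ _ (hsub hmem) 1 1 (by rw [M_zpow e he]; exact N_alg e a haa)
      rw [M_zpow e he, M_zpow e he] at this
      exact N_ne e a ha0 this

end Pool.Agent.Results.MP_5591bc_ag.FiniteMonodromy
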